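import Mathlib

set_option autoImplicit false

/-!
# MP_071fcf_co: the inversion generating function of `2143`-avoiding linear extensions of `EN_{s,3}`

Labels are numbered from `0`, so the first tooth is `0, 1, 2` and the second one is `3, 4, 5`.
In a `2143`-avoiding linear extension all labels `≥ 6` come before `0`.  Hence the part of the word
that begins with `0` is one of `012`, `0512`, `0152`, `04512`, `04152`, and the rest of the word
together with the labels `4, 5` in this part is any `2143`-avoiding linear extension of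
`EN_{s-1,3}` (ending with its labels `1, 2` in the last two cases).
-/

open Finset

namespace Pool.Agent.Results.MP_071fcf_co.Inversions

/-! ### Statement -/

/-- `a ⪯ b` in `EN_{s,3}`: the label `3 j + m` (`m < 3`) is the element `(j + 1, m + 1)`. -/
def Below (a b : ℕ) : Prop := b / 3 ≤ a / 3 ∧ a % 3 ≤ b % 3

/-- `π` (a word in the labels) is a linear extension of `EN_{s,3}`. -/
def IsLE (s : ℕ) (π : Equiv.Perm (Fin (3 * s))) : Prop :=
  ∀ a b : Fin (3 * s), Below a b → π.symm a ≤ π.symm b

/-- `π` contains the pattern `2143`. -/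
def Contains2143 {n : ℕ} (π : Equiv.Perm (Fin n)) : Prop :=
  ∃ i j k l, i < j ∧ j < k ∧ k < l ∧ π j < π i ∧ π i < π l ∧ π l < π k

/-- The number of inversions. -/
def inv {n : ℕ} (π : Equiv.Perm (Fin n)) : ℕ :=
  (univ.filter fun p : Fin n × Fin n => p.1 < p.2 ∧ π p.2 < π p.1).card

open Polynomial in
/-- The polynomials `F_s`. -/
noncomputable def F : ℕ → Polynomial ℤ
  | 0 => 1
  | 1 => 1
  | s + 2 => (1 + X + 2 * X ^ 2) * F (s + 1) + X ^ 3 * F s

/-! ### Words -/

def invL : List ℕ → ℕ
  | [] => 0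
  | x :: l => l.countP (fun y => decide (y < x)) + invL l

theorem invL_append (u v : List ℕ) : invL (u ++ v) =
    invL u + invL v + (u.map fun x => v.countP (fun y => decide (y < x))).sum := by
  induction u with
  | nil => simp [invL]
  | cons x u ih =>
    simp only [List.cons_append, invL, List.countP_append, ih, List.map_cons, List.sum_cons]
    omega

theorem inv_tail (u t r : List ℕ) (hu : ∀ x ∈ u, 3 ≤ x)
    (h : ∀ x, 3 ≤ x → t.countP (fun y => decide (y < x)) = 3 + r.countP (fun y => decide (y < x))) :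
    invL (u ++ t) + invL r = invL (u ++ r) + 3 * u.length + invL t := by
  rw [invL_append, invL_append]
  have : (u.map fun x => t.countP (fun y => decide (y < x))).sum =
      3 * u.length + (u.map fun x => r.countP (fun y => decide (y < x))).sum := by
    clear * - hu h
    induction u with
    | nil => simp
    | cons x u ih =>
      simp only [List.map_cons, List.sum_cons, List.length_cons]
      rw [ih (fun y hy => hu y (List.mem_cons_of_mem _ hy)), h x (hu x List.mem_cons_self)]
      ring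
  omega

theorem invL_map (l : List ℕ) : invL (l.map (· + 3)) = invL l := by
  induction l with
  | nil => rfl
  | cons x l ih =>
    simp only [List.map_cons, invL, ih, List.countP_map]
    congr 2
    ext y
    simp

structure G (s : ℕ) (l : List ℕ) : Prop where
  perm : l.Perm (List.range (3 * s))
  le : ∀ v w, v < 3 * s → w < 3 * s → v ≠ w → Below v w → [v, w].Sublist l
  av : ∀ a b c d, a < b → b < c → c < d → ¬ [b, a, d, c].Sublist l

theorem G.nodup {s : ℕ} {l : List ℕ} (h : G s l) : l.Nodup :=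
  h.perm.nodup_iff.mpr List.nodup_range

theorem G.mem {s : ℕ} {l : List ℕ} (h : G s l) {x : ℕ} : x ∈ l ↔ x < 3 * s := by
  rw [h.perm.mem_iff, List.mem_range]

theorem G.length {s : ℕ} {l : List ℕ} (h : G s l) : l.length = 3 * s := by
  rw [h.perm.length_eq, List.length_range]

theorem sub_append {x w : ℕ} {u v : List ℕ} (h : [x, w].Sublist (u ++ v)) (hx : x ∉ u) :
    [x, w].Sublist v := by
  obtain ⟨l1, l2, h1, h2, h3⟩ := List.sublist_append_iff.mp h
  cases l1 with
  | nil => simp only [List.nil_append] at h1; rw [h1]; exact h3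
  | cons y l1 =>
    rw [List.cons_append, List.cons.injEq] at h1
    exact absurd (h2.subset (by rw [h1.1]; exact List.mem_cons_self)) hx

theorem sub_cons {x w y : ℕ} {v : List ℕ} (h : [x, w].Sublist (y :: v)) (hx : x ≠ y) :
    [x, w].Sublist v :=
  sub_append (u := [y]) (by simpa using h) (by simpa using hx)

/-- the old part of a word -/
def psi (l : List ℕ) : List ℕ := (l.filter fun x => decide (3 ≤ x)).map (· - 3)

theorem psi_map (l : List ℕ) : (psi l).map (· + 3) = l.filter fun x => decide (3 ≤ x) := by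
  unfold psi
  rw [List.map_map]
  conv_rhs => rw [← List.map_id (l.filter fun x => decide (3 ≤ x))]
  apply List.map_congr_left
  intro x hx
  have := (List.mem_filter.mp hx).2
  simp only [decide_eq_true_eq] at this
  simp only [Function.comp_apply, id_eq]
  omega

theorem filter_map (l : List ℕ) : (l.map (· + 3)).filter (fun x => decide (3 ≤ x)) =
    l.map (· + 3) := by
  rw [List.filter_eq_self]
  intro x hx
  obtain ⟨y, _, rfl⟩ := List.mem_map.mp hx
  simp

theorem range_split (s : ℕ) : List.range (3 * (s + 1)) =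
    [0, 1, 2] ++ (List.range (3 * s)).map (· + 3) := by
  rw [show 3 * (s + 1) = 3 + 3 * s by ring, List.range_add]
  have : List.range 3 = [0, 1, 2] := by decide
  rw [this]
  congr 1
  apply List.map_congr_left
  intro x _
  ring

theorem psi_G {s : ℕ} {l : List ℕ} (h : G (s + 1) l) : G s (psi l) := by
  have hmap : ∀ m : List ℕ, (m.map (· + 3)).map (· - 3) = m := by
    intro m
    rw [List.map_map]
    conv_rhs => rw [← List.map_id m]
    apply List.map_congr_left
    intro x _
    simp
  refine ⟨?_, ?_, ?_⟩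
  · unfold psi
    have h1 := (h.perm.filter fun x => decide (3 ≤ x)).map (· - 3)
    rw [range_split, List.filter_append, filter_map, List.map_append, hmap] at h1
    simpa using h1
  · intro v w hv hw hvw hb
    have h1 : [v + 3, w + 3].Sublist l := by
      apply h.le _ _ (by omega) (by omega) (by omega)
      unfold Below at hb ⊢
      omega
    have h2 := (h1.filter fun x => decide (3 ≤ x)).map (· - 3)
    have h3 : ([v + 3, w + 3].filter fun x => decide (3 ≤ x)).map (· - 3) = [v, w] := by simp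
    rw [h3] at h2
    exact h2
  · intro a b c d hab hbc hcd hsub
    have h1 := hsub.map (· + 3)
    rw [psi_map] at h1
    have h2 := h1.trans List.filter_sublist
    exact h.av (a + 3) (b + 3) (c + 3) (d + 3) (by omega) (by omega) (by omega) (by simpa using h2)

/-- the five possible ends of a word -/
theorem tails_enum :
    (∀ v ∈ List.permutations' [1, 2], [1, 2].Sublist v → v = [1, 2]) ∧
    (∀ v ∈ List.permutations' [5, 1, 2], [1, 2].Sublist v → [5, 2].Sublist v →
      v = [5, 1, 2] ∨ v = [1, 5, 2]) ∧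
    (∀ v ∈ List.permutations' [4, 5, 1, 2], [1, 2].Sublist v → [5, 2].Sublist v →
      [4, 5].Sublist v → [4, 1].Sublist v → v = [4, 5, 1, 2] ∨ v = [4, 1, 5, 2]) := by
  refine ⟨by decide, by decide, by decide⟩

theorem structure_thm {s : ℕ} (hs : 1 ≤ s) {l : List ℕ} (h : G (s + 1) l) :
    ∃ u, ((psi l).map (· + 3) = u ∧ l = u ++ [0, 1, 2]) ∨
      ((psi l).map (· + 3) = u ++ [5] ∧ (l = u ++ [0, 5, 1, 2] ∨ l = u ++ [0, 1, 5, 2])) ∨
      ((psi l).map (· + 3) = u ++ [4, 5] ∧
        (l = u ++ [0, 4, 5, 1, 2] ∨ l = u ++ [0, 4, 1, 5, 2])) := by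
  have hnd := h.nodup
  obtain ⟨u, v, hl⟩ := List.append_of_mem (h.mem.mpr (by omega : 0 < 3 * (s + 1)))
  have hnd' := hnd
  rw [hl, List.nodup_append] at hnd'
  obtain ⟨hu, hv0, hdis⟩ := hnd'
  rw [List.nodup_cons] at hv0
  obtain ⟨h0v, hv⟩ := hv0
  have hdis' : ∀ x, x ∈ u → x ∈ v → False := fun x hx hx' =>
    hdis x hx x (List.mem_cons_of_mem _ hx') rfl
  have h0u : 0 ∉ u := fun hx => hdis 0 hx 0 List.mem_cons_self rfl
  have hmem : ∀ x, x < 3 * (s + 1) → x ∈ u ∨ x = 0 ∨ x ∈ v := by
    intro x hx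
    have := h.mem.mpr hx
    rw [hl, List.mem_append, List.mem_cons] at this
    exact this
  have hlt : ∀ x ∈ v, x < 3 * (s + 1) := fun x hx => h.mem.mp (by rw [hl]; simp [hx])
  -- a label below `0` is in `u`
  have hbu : ∀ x, x < 3 * (s + 1) → x ≠ 0 → Below x 0 → x ∈ u := by
    intro x hx hx0 hb
    by_contra hxu
    have h1 := h.le x 0 hx (by omega) hx0 hb
    rw [hl] at h1
    have h2 := sub_cons (sub_append h1 hxu) hx0
    exact h0v (h2.subset (by simp))
  have h3u : 3 ∈ u := hbu 3 (by omega) (by omega) (by unfold Below; omega)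
  -- pairs in `v`
  have hpair : ∀ x w, x ∈ v → w < 3 * (s + 1) → x ≠ w → Below x w → [x, w].Sublist v := by
    intro x w hx hw hxw hb
    have h1 := h.le x w (hlt x hx) hw hxw hb
    rw [hl] at h1
    have hx0 : x ≠ 0 := fun hx0 => h0v (hx0 ▸ hx)
    exact sub_cons (sub_append h1 fun hxu => hdis' x hxu hx) hx0
  have h1v : 1 ∈ v := by
    have h1 := h.le 0 1 (by omega) (by omega) (by omega) (by unfold Below; omega)
    rw [hl] at h1
    have h2 := sub_append h1 h0u
    rw [List.cons_sublist_cons] at h2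
    exact h2.subset (by simp)
  have h12 : [1, 2].Sublist v := hpair 1 2 h1v (by omega) (by omega) (by unfold Below; omega)
  have h2v : 2 ∈ v := h12.subset (by simp)
  have h6 : ∀ x ∈ v, x = 1 ∨ x = 2 ∨ x = 4 ∨ x = 5 := by
    intro x hx
    by_contra hcon
    have hx0 : x ≠ 0 := fun hx0 => h0v (hx0 ▸ hx)
    have hx3 : x ≠ 3 := fun hx3 => hdis' 3 h3u (hx3 ▸ hx)
    have hx6 : 6 ≤ x := by omega
    by_cases hm : x % 3 = 0
    · exact hdis' x (hbu x (hlt x hx) hx0 (by unfold Below; omega)) hx
    · have hp := hpair x (3 + x % 3) hx (by omega) (by omega) (by unfold Below; omega)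
      apply h.av 0 3 (3 + x % 3) x (by omega) (by omega) (by omega)
      rw [hl]
      have e : [3, 0, x, 3 + x % 3] = [3] ++ (0 :: [x, 3 + x % 3]) := rfl
      rw [e]
      exact (List.singleton_sublist.mpr h3u).append (hp.cons_cons 0)
  have hu3 : ∀ x ∈ u, 3 ≤ x := by
    intro x hx
    by_contra hcon
    have hx0 : x ≠ 0 := fun hx0 => h0u (hx0 ▸ hx)
    have : x = 1 ∨ x = 2 := by omega
    rcases this with rfl | rfl
    · exact hdis' 1 hx h1v
    · exact hdis' 2 hx h2v
  have hfu : u.filter (fun x => decide (3 ≤ x)) = u := by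
    rw [List.filter_eq_self]
    intro x hx
    simpa using hu3 x hx
  refine ⟨u, ?_⟩
  rw [psi_map]
  by_cases h5v : 5 ∈ v
  · have h52 := hpair 5 2 h5v (by omega) (by omega) (by unfold Below; omega)
    right
    by_cases h4v : 4 ∈ v
    · have h45 := hpair 4 5 h4v (by omega) (by omega) (by unfold Below; omega)
      have h41 := hpair 4 1 h4v (by omega) (by omega) (by unfold Below; omega)
      have hp : v.Perm [4, 5, 1, 2] := by
        rw [List.perm_ext_iff_of_nodup hv (by decide)]
        intro x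
        constructor
        · intro hx
          rcases h6 x hx with rfl | rfl | rfl | rfl <;> simp
        · intro hx
          simp only [List.mem_cons, List.not_mem_nil, or_false] at hx
          rcases hx with rfl | rfl | rfl | rfl <;> assumption
      right
      rcases tails_enum.2.2 v (List.mem_permutations'.mpr hp) h12 h52 h45 h41 with h | h
      · refine ⟨?_, Or.inl (by rw [hl, h])⟩
        rw [hl, h, List.filter_append, hfu]
        rfl
      · refine ⟨?_, Or.inr (by rw [hl, h])⟩
        rw [hl, h, List.filter_append, hfu]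
        rfl
    · have hp : v.Perm [5, 1, 2] := by
        rw [List.perm_ext_iff_of_nodup hv (by decide)]
        intro x
        constructor
        · intro hx
          rcases h6 x hx with rfl | rfl | rfl | rfl
          · simp
          · simp
          · exact absurd hx h4v
          · simp
        · intro hx
          simp only [List.mem_cons, List.not_mem_nil, or_false] at hx
          rcases hx with rfl | rfl | rfl <;> assumption
      left
      rcases tails_enum.2.1 v (List.mem_permutations'.mpr hp) h12 h52 with h | h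
      · refine ⟨?_, Or.inl (by rw [hl, h])⟩
        rw [hl, h, List.filter_append, hfu]
        rfl
      · refine ⟨?_, Or.inr (by rw [hl, h])⟩
        rw [hl, h, List.filter_append, hfu]
        rfl
  · have h4v : 4 ∉ v := by
      intro h4
      have h45 := hpair 4 5 h4 (by omega) (by omega) (by unfold Below; omega)
      exact h5v (h45.subset (by simp))
    have hp : v.Perm [1, 2] := by
      rw [List.perm_ext_iff_of_nodup hv (by decide)]
      intro x
      constructor
      · intro hx
        rcases h6 x hx with rfl | rfl | rfl | rfl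
        · simp
        · simp
        · exact absurd hx h4v
        · exact absurd hx h5v
      · intro hx
        simp only [List.mem_cons, List.not_mem_nil, or_false] at hx
        rcases hx with rfl | rfl <;> assumption
    left
    have h := tails_enum.1 v (List.mem_permutations'.mpr hp) h12
    refine ⟨?_, by rw [hl, h]⟩
    rw [hl, h, List.filter_append, hfu]
    simp

/-! ### The converse -/

/-- the old labels `r` in the new end `t` -/
def Tail (r t : List ℕ) : Prop :=
  (r = [] ∧ t = [0, 1, 2]) ∨ (r = [5] ∧ t = [0, 5, 1, 2]) ∨ (r = [5] ∧ t = [0, 1, 5, 2]) ∨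
    (r = [4, 5] ∧ t = [0, 4, 5, 1, 2]) ∨ (r = [4, 5] ∧ t = [0, 4, 1, 5, 2])

theorem Tail.perm {r t : List ℕ} (h : Tail r t) : t.Perm ([0, 1, 2] ++ r) := by
  rcases h with ⟨rfl, rfl⟩ | ⟨rfl, rfl⟩ | ⟨rfl, rfl⟩ | ⟨rfl, rfl⟩ | ⟨rfl, rfl⟩ <;> decide

theorem Tail.sub {r t : List ℕ} (h : Tail r t) : r.Sublist t := by
  rcases h with ⟨rfl, rfl⟩ | ⟨rfl, rfl⟩ | ⟨rfl, rfl⟩ | ⟨rfl, rfl⟩ | ⟨rfl, rfl⟩ <;> decide

theorem Tail.mem_r {r t : List ℕ} (h : Tail r t) {x : ℕ} (hx : x ∈ r) : x = 4 ∨ x = 5 := by
  rcases h with ⟨rfl, rfl⟩ | ⟨rfl, rfl⟩ | ⟨rfl, rfl⟩ | ⟨rfl, rfl⟩ | ⟨rfl, rfl⟩ <;>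
    simp at hx <;> omega

theorem Tail.five {r t : List ℕ} (h : Tail r t) (hx : 5 ∈ r) : [5, 2].Sublist t := by
  rcases h with ⟨rfl, rfl⟩ | ⟨rfl, rfl⟩ | ⟨rfl, rfl⟩ | ⟨rfl, rfl⟩ | ⟨rfl, rfl⟩ <;>
    revert hx <;> decide

theorem Tail.four {r t : List ℕ} (h : Tail r t) (hx : 4 ∈ r) :
    [4, 1].Sublist t ∧ [4, 2].Sublist t := by
  rcases h with ⟨rfl, rfl⟩ | ⟨rfl, rfl⟩ | ⟨rfl, rfl⟩ | ⟨rfl, rfl⟩ | ⟨rfl, rfl⟩ <;>
    revert hx <;> decide

theorem Tail.small {r t : List ℕ} (h : Tail r t) :
    [0, 1].Sublist t ∧ [0, 2].Sublist t ∧ [1, 2].Sublist t := by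
  rcases h with ⟨rfl, rfl⟩ | ⟨rfl, rfl⟩ | ⟨rfl, rfl⟩ | ⟨rfl, rfl⟩ | ⟨rfl, rfl⟩ <;> decide

theorem Tail.filter {r t : List ℕ} (h : Tail r t) : t.filter (fun x => decide (3 ≤ x)) = r := by
  rcases h with ⟨rfl, rfl⟩ | ⟨rfl, rfl⟩ | ⟨rfl, rfl⟩ | ⟨rfl, rfl⟩ | ⟨rfl, rfl⟩ <;> decide

theorem Tail.lt {r t : List ℕ} (h : Tail r t) {x : ℕ} (hx : x ∈ t) : x < 6 := by
  rcases h with ⟨rfl, rfl⟩ | ⟨rfl, rfl⟩ | ⟨rfl, rfl⟩ | ⟨rfl, rfl⟩ | ⟨rfl, rfl⟩ <;>
    simp at hx <;> omega

theorem Tail.desc {r t : List ℕ} (h : Tail r t) : ¬ [5, 4].Sublist t := by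
  rcases h with ⟨rfl, rfl⟩ | ⟨rfl, rfl⟩ | ⟨rfl, rfl⟩ | ⟨rfl, rfl⟩ | ⟨rfl, rfl⟩ <;> decide

theorem Tail.three {r t : List ℕ} (h : Tail r t) : 3 ∉ t := by
  rcases h with ⟨rfl, rfl⟩ | ⟨rfl, rfl⟩ | ⟨rfl, rfl⟩ | ⟨rfl, rfl⟩ | ⟨rfl, rfl⟩ <;> decide

theorem Tail.desc' {r t : List ℕ} (h : Tail r t) :
    ¬ [1, 0].Sublist t ∧ ¬ [2, 0].Sublist t ∧ ¬ [2, 1].Sublist t := by
  rcases h with ⟨rfl, rfl⟩ | ⟨rfl, rfl⟩ | ⟨rfl, rfl⟩ | ⟨rfl, rfl⟩ | ⟨rfl, rfl⟩ <;> decide

theorem up {s : ℕ} {σ u r t : List ℕ} (hG : G s σ) (ht : Tail r t)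
    (hσ : σ.map (· + 3) = u ++ r) : G (s + 1) (u ++ t) := by
  have hu3 : ∀ x ∈ u, 3 ≤ x := by
    intro x hx
    have : x ∈ σ.map (· + 3) := by rw [hσ]; simp [hx]
    obtain ⟨y, _, rfl⟩ := List.mem_map.mp this
    omega
  have hfu : u.filter (fun x => decide (3 ≤ x)) = u := by
    rw [List.filter_eq_self]
    intro x hx
    simpa using hu3 x hx
  have hsub : (u ++ r).Sublist (u ++ t) := (List.Sublist.refl u).append ht.sub
  have hperm : (u ++ t).Perm (List.range (3 * (s + 1))) := by
    rw [range_split]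
    refine (ht.perm.append_left u).trans ?_
    rw [← List.append_assoc]
    refine (List.perm_append_comm.append_right r).trans ?_
    rw [List.append_assoc, ← hσ]
    exact (hG.perm.map _).append_left _
  refine ⟨hperm, ?_, ?_⟩
  · intro v w hv hw hvw hb
    unfold Below at hb
    by_cases hw3 : 3 ≤ w
    · have hv3 : 3 ≤ v := by omega
      have h1 := hG.le (v - 3) (w - 3) (by omega) (by omega) (by omega) (by unfold Below; omega)
      have h2 := h1.map (· + 3)
      rw [hσ] at h2
      have h3 : [v - 3, w - 3].map (· + 3) = [v, w] := by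
        simp only [List.map_cons, List.map_nil]
        rw [show v - 3 + 3 = v by omega, show w - 3 + 3 = w by omega]
      rw [h3] at h2
      exact h2.trans hsub
    · by_cases hv3 : 3 ≤ v
      · have hvmem : v ∈ u ++ r := by
          rw [← hσ]
          exact List.mem_map.mpr ⟨v - 3, hG.mem.mpr (by omega), by omega⟩
        rw [List.mem_append] at hvmem
        rcases hvmem with h1 | h1
        · have hwt : w ∈ t := by
            have h2 := ht.small
            have : w = 0 ∨ w = 1 ∨ w = 2 := by omega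
            rcases this with rfl | rfl | rfl
            · exact h2.1.subset (by simp)
            · exact h2.1.subset (by simp)
            · exact h2.2.1.subset (by simp)
          exact (List.singleton_sublist.mpr h1).append (List.singleton_sublist.mpr hwt)
        · have hle : t.Sublist (u ++ t) := List.sublist_append_right u t
          rcases ht.mem_r h1 with rfl | rfl
          · have : w = 1 ∨ w = 2 := by omega
            rcases this with rfl | rfl
            · exact (ht.four h1).1.trans hle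
            · exact (ht.four h1).2.trans hle
          · have : w = 2 := by omega
            subst this
            exact (ht.five h1).trans hle
      · have hle : t.Sublist (u ++ t) := List.sublist_append_right u t
        have h2 := ht.small
        have : (v = 0 ∧ w = 1) ∨ (v = 0 ∧ w = 2) ∨ (v = 1 ∧ w = 2) := by omega
        rcases this with ⟨rfl, rfl⟩ | ⟨rfl, rfl⟩ | ⟨rfl, rfl⟩
        · exact h2.1.trans hle
        · exact h2.2.1.trans hle
        · exact h2.2.2.trans hle
  · intro a b c d hab hbc hcd hs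
    by_cases ha : 3 ≤ a
    · have h1 := hs.filter fun x => decide (3 ≤ x)
      have h2 : [b, a, d, c].filter (fun x => decide (3 ≤ x)) = [b, a, d, c] := by
        rw [List.filter_eq_self]
        intro x hx
        simp only [List.mem_cons, List.not_mem_nil, or_false] at hx
        simp only [decide_eq_true_eq]
        omega
      rw [h2, List.filter_append, hfu, ht.filter, ← hσ] at h1
      obtain ⟨m, h3, h4⟩ := List.sublist_map_iff.mp h1
      match m, h4 with
      | [b', a', d', c'], h4 =>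
        simp only [List.map_cons, List.map_nil, List.cons.injEq, and_true] at h4
        exact hG.av a' b' c' d' (by omega) (by omega) (by omega) h3
    · obtain ⟨l1, l2, h1, h2, h3⟩ := List.sublist_append_iff.mp hs
      have hau : a ∉ u := fun h => ha (hu3 a h)
      have key : [a, d, c].Sublist t ∧ (b < 3 → [b, a].Sublist t) := by
        match l1, h1, h2 with
        | [], h1, h2 =>
          simp only [List.nil_append] at h1
          rw [← h1] at h3
          exact ⟨(List.sublist_cons_self b _).trans h3,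
            fun _ => (List.Sublist.cons_cons b (List.Sublist.cons_cons a
              (List.nil_sublist _))).trans h3⟩
        | [y], h1, h2 =>
          simp only [List.cons_append, List.nil_append, List.cons.injEq] at h1
          rw [← h1.2] at h3
          refine ⟨h3, fun hb => ?_⟩
          have := hu3 y (h2.subset (by simp))
          omega
        | y :: z :: l, h1, h2 =>
          simp only [List.cons_append, List.cons.injEq] at h1
          exact absurd (h2.subset (by simp [← h1.2.1])) hau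
      have hct : c ∈ t := key.1.subset (by simp)
      have hdt : d ∈ t := key.1.subset (by simp)
      have hd6 := ht.lt hdt
      by_cases hb : b < 3
      · have h4 := key.2 hb
        have h5 := ht.desc'
        have : (b = 1 ∧ a = 0) ∨ (b = 2 ∧ a = 0) ∨ (b = 2 ∧ a = 1) := by omega
        rcases this with ⟨rfl, rfl⟩ | ⟨rfl, rfl⟩ | ⟨rfl, rfl⟩
        · exact h5.1 h4
        · exact h5.2.1 h4
        · exact h5.2.2 h4
      · have h4 : d = 5 ∧ c = 4 := by omega
        obtain ⟨rfl, rfl⟩ := h4
        exact ht.desc ((List.sublist_cons_self a _).trans key.1)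

theorem psi_up {σ u r t : List ℕ} (ht : Tail r t)
    (hσ : σ.map (· + 3) = u ++ r) : psi (u ++ t) = σ := by
  have hu3 : ∀ x ∈ u, 3 ≤ x := by
    intro x hx
    have : x ∈ σ.map (· + 3) := by rw [hσ]; simp [hx]
    obtain ⟨y, _, rfl⟩ := List.mem_map.mp this
    omega
  have hfu : u.filter (fun x => decide (3 ≤ x)) = u := by
    rw [List.filter_eq_self]
    intro x hx
    simpa using hu3 x hx
  unfold psi
  rw [List.filter_append, hfu, ht.filter, ← hσ, List.map_map]
  conv_rhs => rw [← List.map_id σ]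
  apply List.map_congr_left
  intro x _
  simp

/-! ### The recursion for sums over words -/

open Classical in
noncomputable def W (s : ℕ) : Finset (List ℕ) :=
  ((List.range (3 * s)).permutations.toFinset).filter (G s)

open Classical in
theorem mem_W {s : ℕ} {l : List ℕ} : l ∈ W s ↔ G s l := by
  unfold W
  rw [mem_filter, List.mem_toFinset, List.mem_permutations]
  exact ⟨fun h => h.2, fun h => ⟨h.perm, h⟩⟩

def End (l : List ℕ) : Prop := ∃ u, l = u ++ [1, 2]

theorem last_two {s : ℕ} (hs : 1 ≤ s) {σ : List ℕ} (h : G s σ) : ∃ τ, σ = τ ++ [2] := by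
  rcases List.eq_nil_or_concat σ with h0 | ⟨τ, x, hx⟩
  · have := h.length
    rw [h0, List.length_nil] at this
    omega
  · rw [List.concat_eq_append] at hx
    by_cases hx2 : x = 2
    · exact ⟨τ, by rw [hx, hx2]⟩
    · exfalso
      have hxm : x ∈ σ := by rw [hx]; simp
      have hxl := h.mem.mp hxm
      have h1 := h.le x 2 hxl (by omega) hx2 (by unfold Below; omega)
      have hnd := h.nodup
      rw [hx, List.nodup_append] at hnd
      have hxτ : x ∉ τ := fun hxτ => hnd.2.2 x hxτ x (by simp) rfl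
      rw [hx] at h1
      have h2 := sub_append h1 hxτ
      have := h2.length_le
      simp at this

def E1 (σ : List ℕ) : List ℕ := σ.map (· + 3) ++ [0, 1, 2]
def E2 (σ : List ℕ) : List ℕ := (σ.map (· + 3)).dropLast ++ [0, 5, 1, 2]
def E3 (σ : List ℕ) : List ℕ := (σ.map (· + 3)).dropLast ++ [0, 1, 5, 2]
def E4 (σ : List ℕ) : List ℕ := (σ.map (· + 3)).dropLast.dropLast ++ [0, 4, 5, 1, 2]
def E5 (σ : List ℕ) : List ℕ := (σ.map (· + 3)).dropLast.dropLast ++ [0, 4, 1, 5, 2]

theorem drop_one {u : List ℕ} {x : ℕ} : (u ++ [x]).dropLast = u := by simp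

theorem drop_two {u : List ℕ} {x y : ℕ} : (u ++ [x, y]).dropLast.dropLast = u := by
  rw [show u ++ [x, y] = (u ++ [x]) ++ [y] by simp, drop_one, drop_one]

theorem End_iff {σ : List ℕ} : End σ ↔ ∃ u, σ.map (· + 3) = u ++ [4, 5] := by
  constructor
  · rintro ⟨u, rfl⟩
    exact ⟨u.map (· + 3), by simp⟩
  · rintro ⟨u, hu⟩
    obtain ⟨l1, l2, h1, h2, h3⟩ := List.map_eq_append_iff.mp hu
    refine ⟨l1, ?_⟩
    rw [h1]
    congr 1
    match l2, h3 with
    | [a, b], h3 =>
      simp only [List.map_cons, List.map_nil, List.cons.injEq, and_true] at h3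
      rw [show a = 1 by omega, show b = 2 by omega]

open Classical in
theorem fiber {s : ℕ} (hs : 1 ≤ s) {σ : List ℕ} (h : G s σ) :
    (W (s + 1)).filter (fun l => psi l = σ) =
      if End σ then {E1 σ, E2 σ, E3 σ, E4 σ, E5 σ} else {E1 σ, E2 σ, E3 σ} := by
  obtain ⟨τ, hτ⟩ := last_two hs h
  have hτ' : σ.map (· + 3) = τ.map (· + 3) ++ [5] := by rw [hτ]; simp
  have m1 : E1 σ ∈ (W (s + 1)).filter (fun l => psi l = σ) := by
    have ht : Tail [] [0, 1, 2] := Or.inl ⟨rfl, rfl⟩
    have hσ : σ.map (· + 3) = σ.map (· + 3) ++ [] := by simp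
    rw [mem_filter, mem_W]
    exact ⟨up h ht hσ, psi_up ht hσ⟩
  have m2 : E2 σ ∈ (W (s + 1)).filter (fun l => psi l = σ) := by
    have ht : Tail [5] [0, 5, 1, 2] := Or.inr (Or.inl ⟨rfl, rfl⟩)
    have e : E2 σ = τ.map (· + 3) ++ [0, 5, 1, 2] := by unfold E2; rw [hτ', drop_one]
    rw [mem_filter, mem_W, e]
    exact ⟨up h ht hτ', psi_up ht hτ'⟩
  have m3 : E3 σ ∈ (W (s + 1)).filter (fun l => psi l = σ) := by
    have ht : Tail [5] [0, 1, 5, 2] := Or.inr (Or.inr (Or.inl ⟨rfl, rfl⟩))
    have e : E3 σ = τ.map (· + 3) ++ [0, 1, 5, 2] := by unfold E3; rw [hτ', drop_one]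
    rw [mem_filter, mem_W, e]
    exact ⟨up h ht hτ', psi_up ht hτ'⟩
  have key : ∀ l, l ∈ (W (s + 1)).filter (fun l => psi l = σ) →
      l = E1 σ ∨ l = E2 σ ∨ l = E3 σ ∨ (End σ ∧ (l = E4 σ ∨ l = E5 σ)) := by
    intro l hl
    rw [mem_filter, mem_W] at hl
    obtain ⟨u, h1⟩ := structure_thm hs hl.1
    rw [hl.2] at h1
    rcases h1 with ⟨h2, h3⟩ | ⟨h2, h3⟩ | ⟨h2, h3⟩
    · left; rw [h3, ← h2]; rfl
    · have e : (σ.map (· + 3)).dropLast = u := by rw [h2, drop_one]
      rcases h3 with h3 | h3
      · right; left; rw [h3]; unfold E2; rw [e]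
      · right; right; left; rw [h3]; unfold E3; rw [e]
    · have e : (σ.map (· + 3)).dropLast.dropLast = u := by rw [h2, drop_two]
      right; right; right
      refine ⟨End_iff.mpr ⟨u, h2⟩, ?_⟩
      rcases h3 with h3 | h3
      · left; rw [h3]; unfold E4; rw [e]
      · right; rw [h3]; unfold E5; rw [e]
  by_cases hE : End σ
  · rw [if_pos hE]
    obtain ⟨u, hu⟩ := End_iff.mp hE
    have m4 : E4 σ ∈ (W (s + 1)).filter (fun l => psi l = σ) := by
      have ht : Tail [4, 5] [0, 4, 5, 1, 2] := Or.inr (Or.inr (Or.inr (Or.inl ⟨rfl, rfl⟩)))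
      have e : E4 σ = u ++ [0, 4, 5, 1, 2] := by unfold E4; rw [hu, drop_two]
      rw [mem_filter, mem_W, e]
      exact ⟨up h ht hu, psi_up ht hu⟩
    have m5 : E5 σ ∈ (W (s + 1)).filter (fun l => psi l = σ) := by
      have ht : Tail [4, 5] [0, 4, 1, 5, 2] := Or.inr (Or.inr (Or.inr (Or.inr ⟨rfl, rfl⟩)))
      have e : E5 σ = u ++ [0, 4, 1, 5, 2] := by unfold E5; rw [hu, drop_two]
      rw [mem_filter, mem_W, e]
      exact ⟨up h ht hu, psi_up ht hu⟩
    ext l
    simp only [Finset.mem_insert, Finset.mem_singleton]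
    constructor
    · intro hl
      rcases key l hl with h1 | h1 | h1 | ⟨_, h1 | h1⟩
      · exact Or.inl h1
      · exact Or.inr (Or.inl h1)
      · exact Or.inr (Or.inr (Or.inl h1))
      · exact Or.inr (Or.inr (Or.inr (Or.inl h1)))
      · exact Or.inr (Or.inr (Or.inr (Or.inr h1)))
    · rintro (rfl | rfl | rfl | rfl | rfl) <;> assumption
  · rw [if_neg hE]
    ext l
    simp only [Finset.mem_insert, Finset.mem_singleton]
    constructor
    · intro hl
      rcases key l hl with h1 | h1 | h1 | ⟨h0, _⟩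
      · exact Or.inl h1
      · exact Or.inr (Or.inl h1)
      · exact Or.inr (Or.inr h1)
      · exact absurd h0 hE
    · rintro (rfl | rfl | rfl) <;> assumption

open Classical in
theorem fiber_sum {K : Type*} [AddCommMonoid K] (g : List ℕ → K) {s : ℕ} (hs : 1 ≤ s)
    {σ : List ℕ} (h : G s σ) :
    ∑ l ∈ (W (s + 1)).filter (fun l => psi l = σ), g l =
      g (E1 σ) + g (E2 σ) + g (E3 σ) + if End σ then g (E4 σ) + g (E5 σ) else 0 := by
  rw [fiber hs h]
  obtain ⟨τ, hτ⟩ := last_two hs h
  have hτ' : σ.map (· + 3) = τ.map (· + 3) ++ [5] := by rw [hτ]; simp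
  by_cases hE : End σ
  · rw [if_pos hE, if_pos hE]
    obtain ⟨u, hu⟩ := End_iff.mp hE
    have e1 : E1 σ = u ++ [4, 5, 0, 1, 2] := by unfold E1; rw [hu]; simp
    have e2 : E2 σ = u ++ [4, 0, 5, 1, 2] := by
      unfold E2; rw [hu, show u ++ [4, 5] = (u ++ [4]) ++ [5] by simp, drop_one]; simp
    have e3 : E3 σ = u ++ [4, 0, 1, 5, 2] := by
      unfold E3; rw [hu, show u ++ [4, 5] = (u ++ [4]) ++ [5] by simp, drop_one]; simp
    have e4 : E4 σ = u ++ [0, 4, 5, 1, 2] := by unfold E4; rw [hu, drop_two]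
    have e5 : E5 σ = u ++ [0, 4, 1, 5, 2] := by unfold E5; rw [hu, drop_two]
    rw [e1, e2, e3, e4, e5]
    rw [Finset.sum_insert (by simp [List.append_right_inj]),
      Finset.sum_insert (by simp [List.append_right_inj]),
      Finset.sum_insert (by simp [List.append_right_inj]),
      Finset.sum_insert (by simp [List.append_right_inj]), Finset.sum_singleton]
    simp only [add_assoc]
  · rw [if_neg hE, if_neg hE]
    have e1 : E1 σ = τ.map (· + 3) ++ [5, 0, 1, 2] := by unfold E1; rw [hτ']; simp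
    have e2 : E2 σ = τ.map (· + 3) ++ [0, 5, 1, 2] := by unfold E2; rw [hτ', drop_one]
    have e3 : E3 σ = τ.map (· + 3) ++ [0, 1, 5, 2] := by unfold E3; rw [hτ', drop_one]
    rw [e1, e2, e3]
    rw [Finset.sum_insert (by simp [List.append_right_inj]),
      Finset.sum_insert (by simp [List.append_right_inj]), Finset.sum_singleton]
    simp only [add_assoc, add_zero]

open Classical in
theorem sum_W {K : Type*} [AddCommMonoid K] (g : List ℕ → K) {s : ℕ} (hs : 1 ≤ s) :
    ∑ l ∈ W (s + 1), g l = ∑ σ ∈ W s,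
      (g (E1 σ) + g (E2 σ) + g (E3 σ) + if End σ then g (E4 σ) + g (E5 σ) else 0) := by
  rw [← Finset.sum_fiberwise_of_maps_to (s := W (s + 1)) (t := W s) (g := psi)
    (fun l hl => mem_W.mpr (psi_G (mem_W.mp hl)))]
  apply Finset.sum_congr rfl
  intro σ hσ
  exact fiber_sum g hs (mem_W.mp hσ)

/-! ### The weights -/

theorem inv_E {s : ℕ} (hs : 1 ≤ s) {σ : List ℕ} (h : G s σ) :
    invL (E1 σ) = invL σ + 9 * s ∧ invL (E2 σ) + 1 = invL σ + 9 * s ∧
    invL (E3 σ) + 2 = invL σ + 9 * s ∧
    (End σ → invL (E4 σ) + 2 = invL σ + 9 * s ∧ invL (E5 σ) + 3 = invL σ + 9 * s) := by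
  obtain ⟨τ, hτ⟩ := last_two hs h
  have hτ' : σ.map (· + 3) = τ.map (· + 3) ++ [5] := by rw [hτ]; simp
  have hlen := h.length
  have h3 : ∀ x ∈ σ.map (· + 3), 3 ≤ x := by
    intro x hx
    obtain ⟨y, _, rfl⟩ := List.mem_map.mp hx
    omega
  have hτl : τ.length + 1 = 3 * s := by rw [← hlen, hτ]; simp
  have c : ∀ x : ℕ, 3 ≤ x → (0 < x) ∧ (1 < x) ∧ (2 < x) := fun x hx => by omega
  refine ⟨?_, ?_, ?_, ?_⟩
  · have := inv_tail (σ.map (· + 3)) [0, 1, 2] [] h3 (fun x hx => by
      obtain ⟨c0, c1, c2⟩ := c x hx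
      simp [List.countP_cons, c0, c1, c2])
    rw [List.append_nil, invL_map, List.length_map, hlen] at this
    unfold E1
    simp [invL] at this
    omega
  · have e : E2 σ = τ.map (· + 3) ++ [0, 5, 1, 2] := by unfold E2; rw [hτ', drop_one]
    have := inv_tail (τ.map (· + 3)) [0, 5, 1, 2] [5] (fun x hx => h3 x (by rw [hτ']; exact List.mem_append_left _ hx)) (fun x hx => by
      obtain ⟨c0, c1, c2⟩ := c x hx
      simp [List.countP_cons, c0, c1, c2]; omega)
    rw [← hτ', invL_map, List.length_map, ← e] at this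
    simp [invL] at this
    omega
  · have e : E3 σ = τ.map (· + 3) ++ [0, 1, 5, 2] := by unfold E3; rw [hτ', drop_one]
    have := inv_tail (τ.map (· + 3)) [0, 1, 5, 2] [5] (fun x hx => h3 x (by rw [hτ']; exact List.mem_append_left _ hx)) (fun x hx => by
      obtain ⟨c0, c1, c2⟩ := c x hx
      simp [List.countP_cons, c0, c1, c2]; omega)
    rw [← hτ', invL_map, List.length_map, ← e] at this
    simp [invL] at this
    omega
  · intro hE
    obtain ⟨u, hu⟩ := End_iff.mp hE
    have hul : u.length + 2 = 3 * s := by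
      have := congrArg List.length hu
      simp at this
      omega
    have e4 : E4 σ = u ++ [0, 4, 5, 1, 2] := by unfold E4; rw [hu, drop_two]
    have e5 : E5 σ = u ++ [0, 4, 1, 5, 2] := by unfold E5; rw [hu, drop_two]
    have hu3 : ∀ x ∈ u, 3 ≤ x := fun x hx => h3 x (by rw [hu]; simp [hx])
    constructor
    · have := inv_tail u [0, 4, 5, 1, 2] [4, 5] hu3 (fun x hx => by
        obtain ⟨c0, c1, c2⟩ := c x hx
        simp [List.countP_cons, c0, c1, c2]; omega)
      rw [← hu, invL_map, ← e4] at this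
      simp [invL] at this
      omega
    · have := inv_tail u [0, 4, 1, 5, 2] [4, 5] hu3 (fun x hx => by
        obtain ⟨c0, c1, c2⟩ := c x hx
        simp [List.countP_cons, c0, c1, c2]; omega)
      rw [← hu, invL_map, ← e5] at this
      simp [invL] at this
      omega

theorem end_E (σ : List ℕ) :
    End (E1 σ) ∧ End (E2 σ) ∧ ¬ End (E3 σ) ∧ End (E4 σ) ∧ ¬ End (E5 σ) := by
  refine ⟨⟨σ.map (· + 3) ++ [0], by simp [E1]⟩, ⟨(σ.map (· + 3)).dropLast ++ [0, 5], by simp [E2]⟩,
    ?_, ⟨(σ.map (· + 3)).dropLast.dropLast ++ [0, 4, 5], by simp [E4]⟩, ?_⟩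
  · rintro ⟨u, hu⟩
    unfold E3 at hu
    rw [show (σ.map (· + 3)).dropLast ++ [0, 1, 5, 2] =
      ((σ.map (· + 3)).dropLast ++ [0, 1]) ++ [5, 2] by simp] at hu
    have := (List.append_inj' hu rfl).2
    simp at this
  · rintro ⟨u, hu⟩
    unfold E5 at hu
    rw [show (σ.map (· + 3)).dropLast.dropLast ++ [0, 4, 1, 5, 2] =
      ((σ.map (· + 3)).dropLast.dropLast ++ [0, 4, 1]) ++ [5, 2] by simp] at hu
    have := (List.append_inj' hu rfl).2
    simp at this

section weights

variable {K : Type*} [Field K] (q : K)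

noncomputable def A (s : ℕ) : K := ∑ l ∈ W s, q ^ invL l

open Classical in
noncomputable def B (s : ℕ) : K := ∑ l ∈ W s, if End l then q ^ invL l else 0

theorem pow_aux (hq : q ≠ 0) {a b j : ℕ} (h : a + j = b) : q ^ a = q ^ b * q⁻¹ ^ j := by
  rw [← h, pow_add, mul_assoc, ← mul_pow, mul_inv_cancel₀ hq, one_pow, mul_one]

theorem A_succ (hq : q ≠ 0) {s : ℕ} (hs : 1 ≤ s) : A q (s + 1) = q ^ (9 * s) *
    ((1 + q⁻¹ + q⁻¹ ^ 2) * A q s + (q⁻¹ ^ 2 + q⁻¹ ^ 3) * B q s) := by
  classical
  unfold A B
  rw [sum_W _ hs, Finset.mul_sum, Finset.mul_sum, ← Finset.sum_add_distrib, Finset.mul_sum]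
  apply Finset.sum_congr rfl
  intro σ hσ
  obtain ⟨h1, h2, h3, h4⟩ := inv_E hs (mem_W.mp hσ)
  rw [h1, pow_aux q hq h2, pow_aux q hq h3]
  by_cases hE : End σ
  · obtain ⟨h5, h6⟩ := h4 hE
    rw [if_pos hE, if_pos hE, pow_aux q hq h5, pow_aux q hq h6, pow_add]
    ring
  · rw [if_neg hE, if_neg hE, pow_add]
    ring

theorem B_succ (hq : q ≠ 0) {s : ℕ} (hs : 1 ≤ s) : B q (s + 1) = q ^ (9 * s) *
    ((1 + q⁻¹) * A q s + q⁻¹ ^ 2 * B q s) := by
  classical
  unfold A B
  rw [sum_W _ hs, Finset.mul_sum, Finset.mul_sum, ← Finset.sum_add_distrib, Finset.mul_sum]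
  apply Finset.sum_congr rfl
  intro σ hσ
  obtain ⟨h1, h2, h3, h4⟩ := inv_E hs (mem_W.mp hσ)
  obtain ⟨e1, e2, e3, e4, e5⟩ := end_E σ
  rw [if_pos e1, if_pos e2, if_neg e3, if_pos e4, if_neg e5, h1, pow_aux q hq h2]
  by_cases hE : End σ
  · obtain ⟨h5, h6⟩ := h4 hE
    rw [if_pos hE, if_pos hE, pow_aux q hq h5, pow_add]
    ring
  · rw [if_neg hE, if_neg hE, pow_add]
    ring

theorem W_one : W 1 = {[0, 1, 2]} := by
  ext l
  rw [mem_W, Finset.mem_singleton]
  constructor
  · intro h
    have h1 : l.Perm [0, 1, 2] := h.perm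
    have h2 := h.le 0 1 (by omega) (by omega) (by omega) (by unfold Below; omega)
    have h3 := h.le 1 2 (by omega) (by omega) (by omega) (by unfold Below; omega)
    have key : ∀ v ∈ List.permutations' [0, 1, 2], [0, 1].Sublist v → [1, 2].Sublist v →
      v = [0, 1, 2] := by decide
    exact key l (List.mem_permutations'.mpr h1) h2 h3
  · rintro rfl
    refine ⟨by decide, ?_, ?_⟩
    · intro v w hv hw hvw hb
      unfold Below at hb
      have : (v = 0 ∧ w = 1) ∨ (v = 0 ∧ w = 2) ∨ (v = 1 ∧ w = 2) := by omega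
      rcases this with ⟨rfl, rfl⟩ | ⟨rfl, rfl⟩ | ⟨rfl, rfl⟩ <;> decide
    · intro a b c d _ _ _ h
      have := h.length_le
      simp at this

theorem main (hq : q ≠ 0) (s : ℕ) :
    A q (s + 1) = q ^ (9 * (s + 1).choose 2) * Polynomial.aeval q⁻¹ (F (s + 1)) ∧
    (1 + q⁻¹) * B q (s + 1) = q ^ (9 * (s + 1).choose 2) *
      (Polynomial.aeval q⁻¹ (F (s + 1)) + q⁻¹ * Polynomial.aeval q⁻¹ (F s)) := by
  induction s with
  | zero =>
    have e0 : (F 0 : Polynomial ℤ) = 1 := rfl
    have e1 : (F 1 : Polynomial ℤ) = 1 := rfl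
    have hA : A q 1 = 1 := by
      unfold A
      rw [W_one, Finset.sum_singleton]
      simp [invL]
    have hB : B q 1 = 1 := by
      unfold B
      rw [W_one, Finset.sum_singleton, if_pos ⟨[0], rfl⟩]
      simp [invL]
    rw [zero_add, hA, hB, e0, e1]
    simp
  | succ s ih =>
    obtain ⟨ihA, ihB⟩ := ih
    have hF : (F (s + 2) : Polynomial ℤ) = (1 + Polynomial.X + 2 * Polynomial.X ^ 2) * F (s + 1) +
      Polynomial.X ^ 3 * F s := rfl
    have hF' : Polynomial.aeval q⁻¹ (F (s + 2)) = (1 + q⁻¹ + 2 * q⁻¹ ^ 2) *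
        Polynomial.aeval q⁻¹ (F (s + 1)) + q⁻¹ ^ 3 * Polynomial.aeval q⁻¹ (F s) := by
      rw [hF]
      simp only [map_add, map_mul, map_pow, map_one, Polynomial.aeval_X, map_ofNat]
    have hch : 9 * (s + 1 + 1).choose 2 = 9 * (s + 1) + 9 * (s + 1).choose 2 := by
      have : (s + 1 + 1).choose 2 = (s + 1).choose 1 + (s + 1).choose 2 := Nat.choose_succ_succ _ _
      rw [Nat.choose_one_right] at this
      omega
    constructor
    · rw [A_succ q hq (by omega), hch, pow_add, show s + 1 + 1 = s + 2 from rfl, hF', ihA]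
      linear_combination (q ^ (9 * (s + 1)) * q⁻¹ ^ 2) * ihB
    · rw [B_succ q hq (by omega), hch, pow_add, show s + 1 + 1 = s + 2 from rfl, hF', ihA]
      linear_combination (q ^ (9 * (s + 1)) * q⁻¹ ^ 2) * ihB

end weights

/-! ### Permutations and words -/

/-- the word of a permutation -/
def word {n : ℕ} (π : Equiv.Perm (Fin n)) : List ℕ := List.ofFn fun i => (π i : ℕ)

theorem sub_finRange {n : ℕ} {m : List (Fin n)} : m.Sublist (List.finRange n) ↔
    m.Pairwise (· < ·) := by
  constructor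
  · intro h
    exact (List.pairwise_lt_finRange n).sublist h
  · intro h
    exact List.sublist_of_subperm_of_pairwise
      (List.subperm_of_subset (h.imp fun hab => ne_of_lt hab) (fun x _ => List.mem_finRange x)) h
      (List.pairwise_lt_finRange n)

theorem sub_word {n : ℕ} (π : Equiv.Perm (Fin n)) (m : List ℕ) : m.Sublist (word π) ↔
    ∃ m' : List (Fin n), m'.Pairwise (· < ·) ∧ m = m'.map fun i => (π i : ℕ) := by
  unfold word
  rw [List.ofFn_eq_map, List.sublist_map_iff]
  simp only [sub_finRange]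

theorem word_perm {n : ℕ} (π : Equiv.Perm (Fin n)) : (word π).Perm (List.range n) := by
  rw [List.perm_ext_iff_of_nodup _ List.nodup_range]
  · intro x
    unfold word
    rw [List.mem_ofFn, List.mem_range]
    constructor
    · rintro ⟨i, rfl⟩
      exact (π i).is_lt
    · intro hx
      exact ⟨π.symm ⟨x, hx⟩, by simp⟩
  · unfold word
    rw [List.nodup_ofFn]
    intro i j h
    exact π.injective (Fin.ext h)

theorem word_G {s : ℕ} (π : Equiv.Perm (Fin (3 * s))) :
    IsLE s π ∧ ¬ Contains2143 π ↔ G s (word π) := by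
  constructor
  · rintro ⟨h1, h2⟩
    refine ⟨word_perm π, ?_, ?_⟩
    · intro v w hv hw hvw hb
      rw [sub_word]
      have h3 := h1 ⟨v, hv⟩ ⟨w, hw⟩ hb
      have h4 : π.symm ⟨v, hv⟩ ≠ π.symm ⟨w, hw⟩ := by
        intro h
        have := π.symm.injective h
        simp only [Fin.mk.injEq] at this
        exact hvw this
      refine ⟨[π.symm ⟨v, hv⟩, π.symm ⟨w, hw⟩], ?_, by simp⟩
      simp only [List.pairwise_cons, List.mem_singleton, forall_eq, List.not_mem_nil,
        IsEmpty.forall_iff, implies_true, List.Pairwise.nil, and_self, and_true]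
      exact lt_of_le_of_ne h3 h4
    · intro a b c d hab hbc hcd hs
      rw [sub_word] at hs
      obtain ⟨m, hm, hmap⟩ := hs
      match m, hmap, hm with
      | [i, j, k, l], hmap, hm =>
        simp only [List.map_cons, List.map_nil, List.cons.injEq, and_true] at hmap
        obtain ⟨e1, e2, e3, e4⟩ := hmap
        rw [List.pairwise_cons, List.pairwise_cons, List.pairwise_cons] at hm
        apply h2
        refine ⟨i, j, k, l, hm.1 j (by simp), hm.2.1 k (by simp), hm.2.2.1 l (by simp), ?_, ?_, ?_⟩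
        · rw [Fin.lt_def]; omega
        · rw [Fin.lt_def]; omega
        · rw [Fin.lt_def]; omega
  · intro h
    constructor
    · intro a b hb
      by_cases hab : a = b
      · rw [hab]
      · have h1 := h.le a b a.is_lt b.is_lt (fun h => hab (Fin.ext h)) hb
        rw [sub_word] at h1
        obtain ⟨m, hm, hmap⟩ := h1
        have hl : m.length = 2 := by
          have := congrArg List.length hmap
          simpa using this.symm
        obtain ⟨i, j, rfl⟩ := List.length_eq_two.mp hl
        simp only [List.map_cons, List.map_nil, List.cons.injEq, and_true] at hmap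
        rw [List.pairwise_cons] at hm
        have e1 : a = π i := Fin.ext hmap.1
        have e2 : b = π j := Fin.ext hmap.2
        rw [e1, e2, Equiv.symm_apply_apply, Equiv.symm_apply_apply]
        exact (hm.1 j (by simp)).le
    · rintro ⟨i, j, k, l, h1, h2, h3, h4, h5, h6⟩
      apply h.av (π j) (π i) (π l) (π k) h4 h5 h6
      rw [sub_word]
      refine ⟨[i, j, k, l], ?_, by simp⟩
      simp only [List.pairwise_cons, List.mem_cons, List.not_mem_nil, or_false, forall_eq_or_imp,
        forall_eq, IsEmpty.forall_iff, implies_true, List.Pairwise.nil, and_self, and_true]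
      exact ⟨⟨h1, h1.trans h2, (h1.trans h2).trans h3⟩, ⟨h2, h2.trans h3⟩, h3⟩

theorem countP_ofFn {n : ℕ} (f : Fin n → ℕ) (x : ℕ) :
    (List.ofFn f).countP (fun y => decide (y < x)) = ∑ i, if f i < x then 1 else 0 := by
  induction n with
  | zero => simp
  | succ n ih =>
    rw [List.ofFn_succ, List.countP_cons, ih, Fin.sum_univ_succ, add_comm]
    congr 1
    simp

theorem invL_ofFn {n : ℕ} (f : Fin n → ℕ) :
    invL (List.ofFn f) = ∑ i, ∑ j, if i < j ∧ f j < f i then 1 else 0 := by
  induction n with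
  | zero => simp [invL]
  | succ n ih =>
    rw [List.ofFn_succ]
    simp only [invL]
    rw [ih, countP_ofFn, Fin.sum_univ_succ]
    congr 1
    · rw [Fin.sum_univ_succ]
      simp [Fin.succ_pos]
    · apply Finset.sum_congr rfl
      intro i _
      rw [Fin.sum_univ_succ]
      simp [Fin.succ_lt_succ_iff]

theorem inv_word {n : ℕ} (π : Equiv.Perm (Fin n)) : inv π = invL (word π) := by
  unfold inv word
  rw [invL_ofFn, Finset.card_filter, ← Finset.univ_product_univ, Finset.sum_product]
  rfl

theorem word_surj {s : ℕ} {l : List ℕ} (h : G s l) : ∃ π : Equiv.Perm (Fin (3 * s)), word π = l := by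
  have hlen := h.length
  have hlt : ∀ i : Fin (3 * s), l[(i : ℕ)]'(by rw [hlen]; exact i.is_lt) < 3 * s := by
    intro i
    exact h.mem.mp (List.getElem_mem _)
  let f : Fin (3 * s) → Fin (3 * s) := fun i => ⟨l[(i : ℕ)]'(by rw [hlen]; exact i.is_lt), hlt i⟩
  have hf : Function.Injective f := by
    intro i j hij
    simp only [f, Fin.mk.injEq] at hij
    exact Fin.ext ((List.Nodup.getElem_inj_iff h.nodup).mp hij)
  refine ⟨Equiv.ofBijective f (Finite.injective_iff_bijective.mp hf), ?_⟩
  unfold word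
  apply List.ext_getElem
  · rw [List.length_ofFn, hlen]
  · intro i h1 h2
    rw [List.getElem_ofFn]
    rfl

open Classical in
/-- **The inversion generating function of `EN_{s,3}(2143)`**: for every field `K` and every
nonzero `q` in `K` (in particular for the indeterminate `q` of a field of rational functions). -/
theorem result {K : Type*} [Field K] (q : K) (hq : q ≠ 0) (s : ℕ) (hs : 1 ≤ s) :
    ∑ π ∈ (univ : Finset (Equiv.Perm (Fin (3 * s)))).filter
        (fun π => IsLE s π ∧ ¬ Contains2143 π), q ^ inv π =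
      q ^ (9 * s.choose 2) * Polynomial.aeval q⁻¹ (F s) := by
  obtain ⟨t, rfl⟩ : ∃ t, s = t + 1 := ⟨s - 1, by omega⟩
  rw [← (main q hq t).1]
  unfold A
  refine Finset.sum_bij (fun π _ => word π) ?_ ?_ ?_ ?_
  · intro π hπ
    rw [mem_filter] at hπ
    rw [mem_W]
    exact (word_G π).mp hπ.2
  · intro π _ π' _ h
    unfold word at h
    ext i
    have := congrFun (List.ofFn_injective h) i
    exact this
  · intro l hl
    rw [mem_W] at hl
    obtain ⟨π, hπ⟩ := word_surj hl
    refine ⟨π, ?_, hπ⟩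
    rw [mem_filter]
    exact ⟨mem_univ _, (word_G π).mpr (by rw [hπ]; exact hl)⟩
  · intro π _
    rw [inv_word]

end Pool.Agent.Results.MP_071fcf_co.Inversions
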